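import Pool.Agent.H86.Inertia.Spec

set_option autoImplicit false
set_option linter.unusedSectionVars false

/-!
# Vertices in the same cell have the same row
-/

namespace Pool.Agent.H86.Inertia

open Matrix Finset Module

variable {V : Type} [Fintype V] [DecidableEq V]

lemma psd_cs {M : Matrix V V ℝ} (hM : M.IsSymm) (h : ∀ c, 0 ≤ qf M c) (c d : V → ℝ) :
    (c ⬝ᵥ (M *ᵥ d)) ^ 2 ≤ qf M c * qf M d := by
  have h1 : ∀ t : ℝ, 0 ≤ qf M d * (t * t) + (2 * (c ⬝ᵥ (M *ᵥ d))) * t + qf M c := by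
    intro t
    have h2 := h (c + t • d)
    rw [qf_add_smul hM, symm_dot hM d c] at h2
    nlinarith
  have h3 := discrim_le_zero h1
  unfold discrim at h3
  nlinarith

/-- the matrix `A + ∑ a_k a_kᵀ` -/
def comp {p : ℕ} (A : Matrix V V ℝ) (a : Fin p → V → ℝ) : Matrix V V ℝ :=
  A + ∑ k, vecMulVec (a k) (a k)

lemma comp_apply {p : ℕ} (A : Matrix V V ℝ) (a : Fin p → V → ℝ) (x y : V) :
    comp A a x y = A x y + ∑ k, a k x * a k y := by
  unfold comp
  rw [Matrix.add_apply, Matrix.sum_apply]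
  simp [vecMulVec_apply]

lemma comp_symm {p : ℕ} {A : Matrix V V ℝ} (hA : A.IsSymm) (a : Fin p → V → ℝ) :
    (comp A a).IsSymm := by
  ext x y
  rw [transpose_apply, comp_apply, comp_apply, hA.apply]
  congr 1
  exact sum_congr rfl fun k _ => mul_comm _ _

lemma qf_addM (A B : Matrix V V ℝ) (c : V → ℝ) : qf (A + B) c = qf A c + qf B c := by
  unfold qf
  rw [add_mulVec, dotProduct_add]

lemma qf_sumM {ι : Type} (s : Finset ι) (B : ι → Matrix V V ℝ) (c : V → ℝ) :
    qf (∑ k ∈ s, B k) c = ∑ k ∈ s, qf (B k) c := by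
  classical
  induction s using Finset.induction_on with
  | empty => simp [qf]
  | insert k s hk ih => rw [sum_insert hk, sum_insert hk, qf_addM, ih]

lemma qf_vec (a c : V → ℝ) : qf (vecMulVec a a) c = (a ⬝ᵥ c) ^ 2 := by
  have := qf_rank_one (0 : Matrix V V ℝ) a c
  rw [zero_add] at this
  rw [this]
  simp [qf]

lemma comp_qf {p : ℕ} (A : Matrix V V ℝ) (a : Fin p → V → ℝ) (c : V → ℝ) :
    qf (comp A a) c = qf A c + ∑ k, (a k ⬝ᵥ c) ^ 2 := by
  unfold comp
  rw [qf_addM, qf_sumM]
  congr 1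
  exact sum_congr rfl fun k _ => qf_vec _ _

lemma qf_single (M : Matrix V V ℝ) (x : V) : qf M (Pi.single x 1) = M x x := by
  unfold qf
  rw [single_one_dotProduct, mulVec_single_one]
  rfl

lemma dot_single (M : Matrix V V ℝ) (x y : V) :
    (Pi.single x 1 : V → ℝ) ⬝ᵥ (M *ᵥ Pi.single y 1) = M x y := by
  rw [single_one_dotProduct, mulVec_single_one]
  rfl

lemma qf_diff {M : Matrix V V ℝ} (hM : M.IsSymm) (x y : V) :
    qf M (Pi.single x 1 - Pi.single y 1) = M x x + M y y - 2 * M x y := by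
  have h1 : (Pi.single x 1 - Pi.single y 1 : V → ℝ) =
      Pi.single x 1 + (-1 : ℝ) • Pi.single y 1 := by
    rw [neg_one_smul, sub_eq_add_neg]
  have h2 : M y x = M x y := hM.apply x y
  rw [h1, qf_add_smul hM, qf_single, qf_single, dot_single, h2]
  ring

/-- Let `M = A + ∑ a_k a_kᵀ` be positive semidefinite, `|a_k| ≤ 1`, and let `A` have zero diagonal.
If the vectors `(a_k x)` and `(a_k y)` are close and `A x y = 0`, then the rows `x` and `y` of `A`
are close. -/
theorem rows_close {p : ℕ} {A : Matrix V V ℝ} (hA : A.IsSymm) (hd : ∀ x, A x x = 0)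
    (a : Fin p → V → ℝ) (ha : ∀ k x, |a k x| ≤ 1) (hS : ∀ c, 0 ≤ qf (comp A a) c)
    (x y : V) (hxy : A x y = 0) (hc : ∀ k, |a k x - a k y| * (2 * p + 1) ≤ 1) (z : V) :
    |A x z - A y z| < 1 := by
  set M := comp A a with hM
  have hMs : M.IsSymm := comp_symm hA a
  have hp0 : (0 : ℝ) ≤ p := Nat.cast_nonneg p
  set δ : ℝ := 1 / (2 * p + 1) with hδ
  have hδ0 : 0 < δ := by positivity
  have hc' : ∀ k, |a k x - a k y| ≤ δ := by
    intro k
    rw [hδ, le_div_iff₀ (by positivity)]
    exact hc k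
  have h1 : qf M (Pi.single x 1 - Pi.single y 1) = ∑ k, (a k x - a k y) ^ 2 := by
    rw [qf_diff hMs, hM, comp_apply, comp_apply, comp_apply, hd, hd, hxy]
    have : ∑ k, (a k x - a k y) ^ 2 =
        ∑ k, a k x * a k x + ∑ k, a k y * a k y - 2 * ∑ k, a k x * a k y := by
      rw [mul_sum, ← sum_add_distrib, ← sum_sub_distrib]
      exact sum_congr rfl fun k _ => by ring
    rw [this]
    ring
  have h2 : ∑ k, (a k x - a k y) ^ 2 ≤ p * δ ^ 2 := by
    calc ∑ k, (a k x - a k y) ^ 2 ≤ ∑ _k : Fin p, δ ^ 2 := by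
          apply sum_le_sum
          intro k _
          rw [← sq_abs (a k x - a k y)]
          exact pow_le_pow_left₀ (abs_nonneg _) (hc' k) 2
      _ = p * δ ^ 2 := by simp
  have h3 : qf M (Pi.single z 1) ≤ p := by
    rw [qf_single, hM, comp_apply, hd, zero_add]
    calc ∑ k, a k z * a k z ≤ ∑ _k : Fin p, (1 : ℝ) := by
          apply sum_le_sum
          intro k _
          have h4 := ha k z
          rw [← sq, ← sq_abs]
          nlinarith [abs_nonneg (a k z)]
      _ = p := by simp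
  have h4 := psd_cs hMs hS (Pi.single x 1 - Pi.single y 1) (Pi.single z 1)
  have h5 : (Pi.single x 1 - Pi.single y 1 : V → ℝ) ⬝ᵥ (M *ᵥ Pi.single z 1) = M x z - M y z := by
    rw [sub_dotProduct, dot_single, dot_single]
  rw [h5, h1] at h4
  have h6 : (M x z - M y z) ^ 2 ≤ (p * δ) ^ 2 := by
    calc (M x z - M y z) ^ 2 ≤ _ := h4
      _ ≤ (p * δ ^ 2) * p := by
          apply mul_le_mul h2 h3 (hS _) (by positivity)
      _ = (p * δ) ^ 2 := by ring
  have h7 : |M x z - M y z| ≤ p * δ := abs_le_of_sq_le_sq h6 (by positivity)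
  have h8 : M x z - M y z = (A x z - A y z) + ∑ k, (a k x - a k y) * a k z := by
    rw [hM, comp_apply, comp_apply]
    have : ∑ k, (a k x - a k y) * a k z = ∑ k, a k x * a k z - ∑ k, a k y * a k z := by
      rw [← sum_sub_distrib]
      exact sum_congr rfl fun k _ => by ring
    rw [this]
    ring
  have h9 : |∑ k, (a k x - a k y) * a k z| ≤ p * δ := by
    refine (abs_sum_le_sum_abs _ _).trans ?_
    calc ∑ k, |(a k x - a k y) * a k z| ≤ ∑ _k : Fin p, δ := by
          apply sum_le_sum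
          intro k _
          rw [abs_mul]
          calc |a k x - a k y| * |a k z| ≤ δ * 1 :=
                mul_le_mul (hc' k) (ha k z) (abs_nonneg _) hδ0.le
            _ = δ := mul_one _
      _ = p * δ := by simp
  have h10 : 2 * (p * δ) < 1 := by
    rw [hδ]
    rw [mul_one_div, ← mul_div_assoc, div_lt_one (by positivity)]
    linarith
  have h11 : A x z - A y z = (M x z - M y z) - ∑ k, (a k x - a k y) * a k z := by
    rw [h8]; ring
  rw [h11]
  calc |(M x z - M y z) - ∑ k, (a k x - a k y) * a k z|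
      ≤ |M x z - M y z| + |∑ k, (a k x - a k y) * a k z| := abs_sub _ _
    _ < 1 := by linarith

/-- The same situation: `A x y` is small from above. -/
theorem entry_small {p : ℕ} {A : Matrix V V ℝ} (hA : A.IsSymm) (hd : ∀ x, A x x = 0)
    (a : Fin p → V → ℝ) (hS : ∀ c, 0 ≤ qf (comp A a) c)
    (x y : V) (hc : ∀ k, |a k x - a k y| * (2 * p + 1) ≤ 1) :
    A x y < 1 := by
  set M := comp A a with hM
  have hMs : M.IsSymm := comp_symm hA a
  have hp0 : (0 : ℝ) ≤ p := Nat.cast_nonneg p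
  set δ : ℝ := 1 / (2 * p + 1) with hδ
  have hδ0 : 0 < δ := by positivity
  have hc' : ∀ k, |a k x - a k y| ≤ δ := by
    intro k
    rw [hδ, le_div_iff₀ (by positivity)]
    exact hc k
  have h1 : qf M (Pi.single x 1 - Pi.single y 1) = ∑ k, (a k x - a k y) ^ 2 - 2 * A x y := by
    rw [qf_diff hMs, hM, comp_apply, comp_apply, comp_apply, hd, hd]
    have : ∑ k, (a k x - a k y) ^ 2 =
        ∑ k, a k x * a k x + ∑ k, a k y * a k y - 2 * ∑ k, a k x * a k y := by
      rw [mul_sum, ← sum_add_distrib, ← sum_sub_distrib]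
      exact sum_congr rfl fun k _ => by ring
    rw [this]
    ring
  have h2 : ∑ k, (a k x - a k y) ^ 2 ≤ p * δ ^ 2 := by
    calc ∑ k, (a k x - a k y) ^ 2 ≤ ∑ _k : Fin p, δ ^ 2 := by
          apply sum_le_sum
          intro k _
          rw [← sq_abs (a k x - a k y)]
          exact pow_le_pow_left₀ (abs_nonneg _) (hc' k) 2
      _ = p * δ ^ 2 := by simp
  have h3 := hS (Pi.single x 1 - Pi.single y 1)
  rw [h1] at h3
  have h4 : (p : ℝ) * δ ^ 2 < 2 := by
    have h5 : (p : ℝ) * δ ≤ 1 := by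
      rw [hδ, mul_one_div, div_le_one (by positivity)]
      linarith
    have h6 : δ ≤ 1 := by
      rw [hδ, div_le_one (by positivity)]
      linarith
    nlinarith
  linarith

end Pool.Agent.H86.Inertia
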