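import Pool.Agent.H86.Inertia.Cell

set_option autoImplicit false
set_option linter.unusedSectionVars false

/-!
# Counting the rows of an adjacency matrix with few negative or few positive eigenvalues
-/

namespace Pool.Agent.H86.Inertia

open Matrix Finset Module

variable {V : Type} [Fintype V] [DecidableEq V]

lemma T_bound {A : Matrix V V ℝ} (h : ∀ x y, |A x y| ≤ 1) : ∀ c ∈ T V, -1 ≤ qf A c := by
  intro c hc
  have hc' : ∑ x, |c x| ≤ 1 := hc
  have h0 : (0 : ℝ) ≤ ∑ x, |c x| := sum_nonneg fun _ _ => abs_nonneg _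
  have h1 : |qf A c| ≤ 1 := by
    unfold qf
    simp only [dotProduct, mulVec]
    calc |∑ x, c x * ∑ y, A x y * c y| ≤ ∑ x, |c x * ∑ y, A x y * c y| := abs_sum_le_sum_abs _ _
      _ ≤ ∑ x, |c x| * 1 := by
          apply sum_le_sum
          intro x _
          rw [abs_mul]
          apply mul_le_mul_of_nonneg_left _ (abs_nonneg _)
          calc |∑ y, A x y * c y| ≤ ∑ y, |A x y * c y| := abs_sum_le_sum_abs _ _
            _ ≤ ∑ y, |c y| := by
                apply sum_le_sum
                intro y _
                rw [abs_mul]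
                calc |A x y| * |c y| ≤ 1 * |c y| :=
                      mul_le_mul_of_nonneg_right (h x y) (abs_nonneg _)
                  _ = |c y| := one_mul _
            _ ≤ 1 := hc'
      _ ≤ 1 := by simpa using hc'
  exact (abs_le.1 h1).1

/-- the cell of a vertex -/
noncomputable def cell {p : ℕ} (a : Fin p → V → ℝ) (ha : ∀ k x, |a k x| ≤ 1) (x : V) :
    Fin p → Fin (4 * p + 3) :=
  fun k => ⟨⌊(a k x + 1) * (2 * p + 1)⌋₊, by
    have h1 := abs_le.1 (ha k x)
    have h2 : (a k x + 1) * (2 * p + 1) ≤ ((4 * p + 2 : ℕ) : ℝ) := by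
      push_cast
      have : (0 : ℝ) ≤ 2 * p + 1 := by positivity
      nlinarith
    have h3 := Nat.floor_le_floor h2
    rw [Nat.floor_natCast] at h3
    omega⟩

lemma cell_close {p : ℕ} (a : Fin p → V → ℝ) (ha : ∀ k x, |a k x| ≤ 1) (x y : V)
    (h : cell a ha x = cell a ha y) (k : Fin p) : |a k x - a k y| * (2 * p + 1) ≤ 1 := by
  have h1 := congrFun h k
  unfold cell at h1
  rw [Fin.mk.injEq] at h1
  have h0 : ∀ z, 0 ≤ (a k z + 1) * (2 * p + 1) := by
    intro z
    have h2 := abs_le.1 (ha k z)
    have : (0 : ℝ) ≤ 2 * p + 1 := by positivity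
    apply mul_nonneg (by linarith) this
  have hx1 := Nat.floor_le (h0 x)
  have hy1 := Nat.floor_le (h0 y)
  have hx2 := Nat.lt_floor_add_one ((a k x + 1) * (2 * p + 1))
  have hy2 := Nat.lt_floor_add_one ((a k y + 1) * (2 * p + 1))
  rw [← h1] at hy1 hy2
  have hp : (0 : ℝ) < 2 * p + 1 := by positivity
  have h3 : |a k x - a k y| * (2 * p + 1) = |(a k x + 1) * (2 * p + 1) - (a k y + 1) * (2 * p + 1)| := by
    rw [← sub_mul, abs_mul, abs_of_pos hp]
    ring_nf
  rw [h3]
  apply le_of_lt
  rw [abs_lt]
  constructor <;> linarith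

lemma card_cells (p : ℕ) : Fintype.card (Fin p → Fin (4 * p + 3)) = (4 * p + 3) ^ p := by
  simp

section graph

variable (G : SimpleGraph V) [DecidableRel G.Adj]

/-- The set of rows of the adjacency matrix. -/
noncomputable def rows : Finset (V → ℝ) := by
  classical exact univ.image (fun v => (fun w => G.adjMatrix ℝ v w))

lemma adj_abs (x y : V) : |G.adjMatrix ℝ x y| ≤ 1 := by
  rw [SimpleGraph.adjMatrix_apply]
  split_ifs <;> simp

lemma adj_diag (x : V) : G.adjMatrix ℝ x x = 0 := by simp

/-- Two close rows of an adjacency matrix are equal. -/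
lemma row_eq_of_close (x y : V) (h : ∀ z, |G.adjMatrix ℝ x z - G.adjMatrix ℝ y z| < 1) :
    (fun w => G.adjMatrix ℝ x w) = (fun w => G.adjMatrix ℝ y w) := by
  ext z
  have h1 := h z
  simp only [SimpleGraph.adjMatrix_apply] at h1 ⊢
  split_ifs at h1 ⊢ <;> simp_all

/-- Few negative eigenvalues: vertices in the same cell have the same row. -/
theorem rows_le_neg {p : ℕ} (hp : NegLE (G.adjMatrix ℝ) p) : (rows G).card ≤ (4 * p + 3) ^ p := by
  classical
  obtain ⟨a, ha, hS⟩ := peel p (G.adjMatrix ℝ) (G.isSymm_adjMatrix) hp (T_bound (adj_abs G))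
  have hS' : ∀ c, 0 ≤ qf (comp (G.adjMatrix ℝ) a) c := by
    intro c
    rw [comp_qf]
    exact hS c
  have hkey : ∀ x y, cell a ha x = cell a ha y →
      (fun w => G.adjMatrix ℝ x w) = (fun w => G.adjMatrix ℝ y w) := by
    intro x y hxy
    have hc := cell_close a ha x y hxy
    have h1 := entry_small (G.isSymm_adjMatrix) (adj_diag G) a hS' x y hc
    have h2 : G.adjMatrix ℝ x y = 0 := by
      rw [SimpleGraph.adjMatrix_apply] at h1 ⊢
      split_ifs at h1 ⊢ with h
      · simp at h1
      · rfl
    exact row_eq_of_close G x y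
      (fun z => rows_close (G.isSymm_adjMatrix) (adj_diag G) a ha hS' x y h2 hc z)
  rw [← card_cells p]
  have hcard : (rows G).card ≤ (univ.image (cell a ha)).card := by
    refine Finset.card_le_card_of_surjOn
      (fun κ => if h : ∃ x, cell a ha x = κ then (fun w => G.adjMatrix ℝ h.choose w) else 0) ?_
    intro ρ hρ
    unfold rows at hρ
    rw [coe_image, coe_univ, Set.image_univ] at hρ
    obtain ⟨x, rfl⟩ := hρ
    refine ⟨cell a ha x, by simp, ?_⟩
    have h : ∃ y, cell a ha y = cell a ha x := ⟨x, rfl⟩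
    simp only [dif_pos h]
    exact hkey _ _ h.choose_spec
  exact hcard.trans (card_le_univ _)

/-- A clique with at least two vertices has at most `rank` vertices. -/
theorem clique_le (S : Finset V) (hS : G.IsClique (S : Set V)) (h2 : 2 ≤ S.card) :
    S.card ≤ (G.adjMatrix ℝ).rank := by
  classical
  have hli : LinearIndependent ℝ (fun i : S => (G.adjMatrix ℝ).row (i : V)) := by
    rw [Fintype.linearIndependent_iff]
    intro c hc
    have h1 : ∀ j : S, ∑ i : S, c i = c j := by
      intro j
      have h3 := congrFun hc (j : V)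
      simp only [Finset.sum_apply, Pi.smul_apply, smul_eq_mul, Pi.zero_apply] at h3
      have h4 : ∀ i : S, c i * (G.adjMatrix ℝ).row (i : V) (j : V) =
          c i - if i = j then c i else 0 := by
        intro i
        by_cases hij : i = j
        · subst hij
          simp [Matrix.row]
        · have : G.Adj (i : V) (j : V) := hS i.2 j.2 (fun h => hij (Subtype.ext h))
          simp [Matrix.row, SimpleGraph.adjMatrix_apply, this, hij]
      rw [sum_congr rfl (fun i _ => h4 i), sum_sub_distrib, sum_ite_eq' univ j] at h3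
      simp only [mem_univ, if_true] at h3
      linarith
    have h5 : ∑ i : S, c i = (S.card : ℝ) * ∑ i : S, c i := by
      conv_lhs => rw [sum_congr rfl (fun i _ => (h1 i).symm)]
      rw [sum_const, nsmul_eq_mul]
      simp
    have h6 : (2 : ℝ) ≤ S.card := by exact_mod_cast h2
    have h7 : ∑ i : S, c i = 0 := by
      by_contra hne
      have : (S.card : ℝ) = 1 := by
        have := mul_right_cancel₀ hne (show (1 : ℝ) * ∑ i : S, c i = S.card * ∑ i : S, c i by
          rw [one_mul]; exact h5)
        exact this.symm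
      linarith
    intro i
    rw [← h1 i, h7]
  have h8 := finrank_span_eq_card hli
  rw [Fintype.card_coe] at h8
  rw [← h8, Matrix.rank_eq_finrank_span_row]
  have : FiniteDimensional ℝ (Submodule.span ℝ (Set.range (G.adjMatrix ℝ).row)) :=
    FiniteDimensional.span_of_finite ℝ (Set.finite_range _)
  refine Submodule.finrank_mono (Submodule.span_mono ?_)
  rintro _ ⟨u, rfl⟩
  exact ⟨u, rfl⟩

/-- Few positive eigenvalues: vertices in the same cell are adjacent or have the same row. -/
theorem rows_le_pos {p : ℕ} (hp : NegLE (-(G.adjMatrix ℝ)) p) :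
    (rows G).card ≤ max 1 (G.adjMatrix ℝ).rank * (4 * p + 3) ^ p := by
  classical
  have hab : ∀ x y, |(-(G.adjMatrix ℝ)) x y| ≤ 1 := by
    intro x y
    rw [neg_apply, abs_neg]
    exact adj_abs G x y
  have hsym : (-(G.adjMatrix ℝ)).IsSymm := (G.isSymm_adjMatrix (α := ℝ)).neg
  have hdiag : ∀ x, (-(G.adjMatrix ℝ)) x x = 0 := by
    intro x
    rw [neg_apply, adj_diag, neg_zero]
  obtain ⟨a, ha, hS⟩ := peel p (-(G.adjMatrix ℝ)) hsym hp (T_bound hab)
  have hS' : ∀ c, 0 ≤ qf (comp (-(G.adjMatrix ℝ)) a) c := by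
    intro c
    rw [comp_qf]
    exact hS c
  have hkey : ∀ x y, cell a ha x = cell a ha y → ¬ G.Adj x y →
      (fun w => G.adjMatrix ℝ x w) = (fun w => G.adjMatrix ℝ y w) := by
    intro x y hxy hadj
    have hc := cell_close a ha x y hxy
    have h2 : (-(G.adjMatrix ℝ)) x y = 0 := by
      rw [neg_apply, SimpleGraph.adjMatrix_apply, if_neg hadj, neg_zero]
    refine row_eq_of_close G x y (fun z => ?_)
    have h3 := rows_close hsym hdiag a ha hS' x y h2 hc z
    rw [neg_apply, neg_apply, ← abs_neg] at h3
    convert h3 using 2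
    ring
  rcases isEmpty_or_nonempty V with hV | hV
  · have : rows G = ∅ := by
      unfold rows
      simp
    rw [this]
    simp
  -- choose a representative of every row
  have hrep : ∀ ρ ∈ rows G, ∃ x : V, (fun w => G.adjMatrix ℝ x w) = ρ := by
    intro ρ hρ
    unfold rows at hρ
    rw [mem_image] at hρ
    obtain ⟨x, -, hx⟩ := hρ
    exact ⟨x, hx⟩
  choose! f hf using hrep
  rw [← card_cells p, ← Finset.card_univ]
  refine Finset.card_le_mul_card_image_of_maps_to (f := fun ρ => cell a ha (f ρ))
    (fun ρ _ => mem_univ _) _ ?_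
  intro κ _
  -- the representatives of the rows in the cell form a clique
  set S := ((rows G).filter (fun ρ => cell a ha (f ρ) = κ)).image f with hSdef
  have hinj : ∀ ρ ∈ rows G, ∀ σ ∈ rows G, f ρ = f σ → ρ = σ := by
    intro ρ hρ σ hσ h
    rw [← hf ρ hρ, ← hf σ hσ, h]
  have hcardS : S.card = ((rows G).filter (fun ρ => cell a ha (f ρ) = κ)).card := by
    rw [hSdef]
    apply card_image_of_injOn
    intro ρ hρ σ hσ h
    rw [coe_filter] at hρ hσ
    exact hinj ρ hρ.1 σ hσ.1 h
  rw [← hcardS]
  have hclique : G.IsClique (S : Set V) := by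
    intro x hx y hy hxy
    rw [mem_coe, hSdef, mem_image] at hx hy
    obtain ⟨ρ, hρ, rfl⟩ := hx
    obtain ⟨σ, hσ, rfl⟩ := hy
    rw [mem_filter] at hρ hσ
    by_contra hadj
    have h4 := hkey (f ρ) (f σ) (hρ.2.trans hσ.2.symm) hadj
    rw [hf ρ hρ.1, hf σ hσ.1] at h4
    exact hxy (by rw [h4])
  by_cases h2 : 2 ≤ S.card
  · exact (clique_le G S hclique h2).trans (le_max_right _ _)
  · exact le_trans (by omega) (le_max_left _ _)

/-- The chromatic number is at most the number of distinct rows. -/
theorem colorable_rows : G.Colorable (rows G).card := by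
  classical
  have h : ∀ v : V, (fun w => G.adjMatrix ℝ v w) ∈ rows G := by
    intro v
    unfold rows
    exact mem_image_of_mem _ (mem_univ v)
  have hc : G.Coloring (rows G) := SimpleGraph.Coloring.mk
    (fun v => (⟨fun w => G.adjMatrix ℝ v w, h v⟩ : rows G)) (by
      intro u v huv heq
      rw [Subtype.mk.injEq] at heq
      have h1 := congrFun heq v
      simp only [SimpleGraph.adjMatrix_apply] at h1
      rw [if_pos huv] at h1
      simp at h1)
  have := hc.colorable
  rwa [Fintype.card_coe] at this

end graph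

end Pool.Agent.H86.Inertia
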