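import Mathlib

set_option autoImplicit false

/-!
# Peeling off the negative directions of a symmetric matrix, one at a time
-/

namespace Pool.Agent.H86.Inertia

open Matrix Finset Module

variable {V : Type} [Fintype V]

/-- The quadratic form of `A`. -/
def qf (A : Matrix V V ℝ) (x : V → ℝ) : ℝ := x ⬝ᵥ (A *ᵥ x)

/-- Every subspace on which the form of `A` is negative definite has dimension at most `p`. -/
def NegLE (A : Matrix V V ℝ) (p : ℕ) : Prop :=
  ∀ E : Submodule ℝ (V → ℝ), (∀ x ∈ E, x ≠ 0 → qf A x < 0) → finrank ℝ E ≤ p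

lemma qf_smul (A : Matrix V V ℝ) (t : ℝ) (x : V → ℝ) : qf A (t • x) = t ^ 2 * qf A x := by
  unfold qf
  rw [mulVec_smul, smul_dotProduct, dotProduct_smul, smul_eq_mul, smul_eq_mul]
  ring

lemma symm_dot {A : Matrix V V ℝ} (hA : A.IsSymm) (x y : V → ℝ) :
    x ⬝ᵥ (A *ᵥ y) = y ⬝ᵥ (A *ᵥ x) := by
  rw [dotProduct_mulVec, ← mulVec_transpose, hA.eq, dotProduct_comm]

lemma qf_add {A : Matrix V V ℝ} (hA : A.IsSymm) (x y : V → ℝ) :
    qf A (x + y) = qf A x + 2 * (y ⬝ᵥ (A *ᵥ x)) + qf A y := by
  unfold qf
  rw [mulVec_add, add_dotProduct, dotProduct_add, dotProduct_add, symm_dot hA x y]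
  ring

lemma qf_add_smul {A : Matrix V V ℝ} (hA : A.IsSymm) (x y : V → ℝ) (t : ℝ) :
    qf A (x + t • y) = qf A x + 2 * t * (y ⬝ᵥ (A *ᵥ x)) + t ^ 2 * qf A y := by
  rw [qf_add hA, qf_smul, smul_dotProduct, smul_eq_mul]
  ring

lemma qf_continuous (A : Matrix V V ℝ) : Continuous (qf A) := by
  unfold qf
  simp only [dotProduct, mulVec]
  fun_prop

lemma qf_rank_one (A : Matrix V V ℝ) (a x : V → ℝ) :
    qf (A + vecMulVec a a) x = qf A x + (a ⬝ᵥ x) ^ 2 := by
  unfold qf
  rw [add_mulVec, dotProduct_add, vecMulVec_mulVec, dotProduct_smul]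
  simp only [MulOpposite.smul_eq_mul_unop, MulOpposite.unop_op]
  rw [dotProduct_comm x a]
  ring

lemma NegLE.mono {A : Matrix V V ℝ} {p q : ℕ} (h : NegLE A p) (hpq : p ≤ q) : NegLE A q :=
  fun E hE => (h E hE).trans hpq

/-- the set of vectors of `l¹` norm at most one -/
def T (V : Type) [Fintype V] : Set (V → ℝ) := {c | ∑ x, |c x| ≤ 1}

lemma T_compact : IsCompact (T V) := by
  have h1 : IsClosed (T V) := isClosed_le (by fun_prop) continuous_const
  refine (isCompact_closedBall (0 : V → ℝ) 1).of_isClosed_subset h1 ?_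
  intro c hc
  rw [mem_closedBall_zero_iff, pi_norm_le_iff_of_nonneg zero_le_one]
  intro x
  rw [Real.norm_eq_abs]
  exact (single_le_sum (f := fun x => |c x|) (fun _ _ => abs_nonneg _) (mem_univ x)).trans hc

lemma T_neg {c : V → ℝ} (hc : c ∈ T V) : -c ∈ T V := by
  simpa [T] using hc

lemma T_conv {c d : V → ℝ} (hc : c ∈ T V) (hd : d ∈ T V) {t : ℝ} (h0 : 0 ≤ t) (h1 : t ≤ 1) :
    c + t • (d - c) ∈ T V := by
  show ∑ x, |(c + t • (d - c)) x| ≤ 1
  have h2 : ∀ x, |(c + t • (d - c)) x| ≤ (1 - t) * |c x| + t * |d x| := by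
    intro x
    have : (c + t • (d - c)) x = (1 - t) * c x + t * d x := by
      simp only [Pi.add_apply, Pi.smul_apply, Pi.sub_apply, smul_eq_mul]
      ring
    rw [this]
    refine (abs_add_le _ _).trans ?_
    rw [abs_mul, abs_mul, abs_of_nonneg h0, abs_of_nonneg (by linarith : (0 : ℝ) ≤ 1 - t)]
  refine (sum_le_sum fun x _ => h2 x).trans ?_
  rw [sum_add_distrib, ← mul_sum, ← mul_sum]
  have hc' : ∑ x, |c x| ≤ 1 := hc
  have hd' : ∑ x, |d x| ≤ 1 := hd
  nlinarith

/-- **Peeling.** -/
theorem peel (p : ℕ) : ∀ (A : Matrix V V ℝ), A.IsSymm → NegLE A p →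
    (∀ c ∈ T V, -1 ≤ qf A c) →
    ∃ a : Fin p → V → ℝ, (∀ k x, |a k x| ≤ 1) ∧
      ∀ c : V → ℝ, 0 ≤ qf A c + ∑ k, (a k ⬝ᵥ c) ^ 2 := by
  classical
  induction p with
  | zero =>
    intro A hA hN hT
    refine ⟨fun k => k.elim0, fun k => k.elim0, fun c => ?_⟩
    simp only [univ_eq_empty, sum_empty, add_zero]
    by_contra hc
    push Not at hc
    have hc0 : c ≠ 0 := by
      rintro rfl
      simp [qf] at hc
    have h1 := hN (Submodule.span ℝ {c}) (by
      intro x hx hx0
      obtain ⟨t, rfl⟩ := Submodule.mem_span_singleton.1 hx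
      have ht : t ≠ 0 := by
        rintro rfl
        simp at hx0
      rw [qf_smul]
      have : 0 < t ^ 2 := by positivity
      nlinarith)
    rw [finrank_span_singleton hc0] at h1
    omega
  | succ p ih =>
    intro A hA hN hT
    by_cases hpos : ∀ c, 0 ≤ qf A c
    · refine ⟨fun _ _ => 0, fun _ _ => by simp, fun c => ?_⟩
      have : ∑ k : Fin (p + 1), ((fun _ => (0 : ℝ)) ⬝ᵥ c) ^ 2 = 0 := by
        apply sum_eq_zero
        intro k _
        simp [dotProduct]
      rw [this, add_zero]
      exact hpos c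
    push Not at hpos
    obtain ⟨x0, hx0⟩ := hpos
    obtain ⟨c0, hc0T, hmin⟩ := T_compact.exists_isMinOn (s := T V)
      ⟨0, by simp [T]⟩ (qf_continuous A).continuousOn
    have hmin' : ∀ t ∈ T V, qf A c0 ≤ qf A t := fun t ht => hmin ht
    -- the minimum is negative
    have hneg : qf A c0 < 0 := by
      have hs : 0 < ∑ x, |x0 x| := by
        by_contra h
        push Not at h
        have h0 : ∀ x, x0 x = 0 := by
          intro x
          have h1 := single_le_sum (f := fun x => |x0 x|) (fun _ _ => abs_nonneg _) (mem_univ x)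
          have h2 : |x0 x| ≤ 0 := h1.trans h
          exact abs_eq_zero.1 (le_antisymm h2 (abs_nonneg _))
        have : x0 = 0 := funext h0
        rw [this] at hx0
        simp [qf] at hx0
      set s := ∑ x, |x0 x| with hsd
      have h1 : (s⁻¹ • x0) ∈ T V := by
        show ∑ x, |(s⁻¹ • x0) x| ≤ 1
        simp only [Pi.smul_apply, smul_eq_mul, abs_mul]
        rw [← mul_sum, abs_of_pos (by positivity : (0 : ℝ) < s⁻¹), ← hsd,
          inv_mul_cancel₀ hs.ne']
      refine (hmin' _ h1).trans_lt ?_
      rw [qf_smul]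
      have : 0 < s⁻¹ ^ 2 := by positivity
      nlinarith
    set h2 := -qf A c0 with hh2
    have h2pos : 0 < h2 := by linarith
    have h2le : h2 ≤ 1 := by
      have := hT c0 hc0T
      linarith
    set h := Real.sqrt h2 with hh
    have hpos' : 0 < h := Real.sqrt_pos.2 h2pos
    have hsq : h * h = h2 := Real.mul_self_sqrt h2pos.le
    have hle1 : h ≤ 1 := by
      rw [hh]
      exact Real.sqrt_le_one.2 h2le
    -- first order condition
    have first : ∀ t ∈ T V, -h2 ≤ t ⬝ᵥ (A *ᵥ c0) := by
      intro t ht
      by_contra hcon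
      push Not at hcon
      have hd : (t - c0) ⬝ᵥ (A *ᵥ c0) < 0 := by
        rw [sub_dotProduct]
        have : c0 ⬝ᵥ (A *ᵥ c0) = -h2 := by
          rw [hh2]
          simp [qf]
        linarith
      set b := (t - c0) ⬝ᵥ (A *ᵥ c0) with hb
      set g := qf A (t - c0) with hg
      have key : ∀ l : ℝ, 0 ≤ l → l ≤ 1 → 0 ≤ 2 * l * b + l ^ 2 * g := by
        intro l hl0 hl1
        have h3 := hmin' _ (T_conv hc0T ht hl0 hl1)
        rw [qf_add_smul hA] at h3
        linarith
      have hg1 : 0 < |g| + 1 := by positivity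
      set l := min 1 (-b / (|g| + 1)) with hl
      have hl0 : 0 < l := lt_min one_pos (div_pos (by linarith) hg1)
      have hl1 : l ≤ 1 := min_le_left _ _
      have hl2 : l * (|g| + 1) ≤ -b := by
        have : l ≤ -b / (|g| + 1) := min_le_right _ _
        calc l * (|g| + 1) ≤ (-b / (|g| + 1)) * (|g| + 1) := by
              exact mul_le_mul_of_nonneg_right this hg1.le
          _ = -b := by field_simp
      have h4 := key l hl0.le hl1
      have h5 : l * g ≤ l * |g| := mul_le_mul_of_nonneg_left (le_abs_self g) hl0.le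
      have h6 : l * g < -b := by nlinarith
      have h7 : 2 * l * b + l ^ 2 * g = l * (2 * b + l * g) := by ring
      rw [h7] at h4
      have h8 : 2 * b + l * g < 0 := by linarith
      nlinarith
    have habs : ∀ x, |(A *ᵥ c0) x| ≤ h2 := by
      intro x
      have hx : (Pi.single x 1 : V → ℝ) ∈ T V := by
        show ∑ y, |(Pi.single x 1 : V → ℝ) y| ≤ 1
        rw [sum_eq_single x]
        · simp
        · intro y _ hy
          rw [Pi.single_eq_of_ne hy]
          simp
        · simp
      have h3 := first _ hx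
      have h4 := first _ (T_neg hx)
      rw [single_one_dotProduct] at h3
      rw [neg_dotProduct, single_one_dotProduct] at h4
      rw [abs_le]
      constructor <;> linarith
    set a : V → ℝ := fun x => -(A *ᵥ c0) x / h with ha
    have ha1 : ∀ x, |a x| ≤ 1 := by
      intro x
      rw [ha]
      simp only [abs_div, abs_neg]
      rw [abs_of_pos hpos', div_le_one hpos']
      refine (habs x).trans ?_
      rw [← hsq]
      nlinarith
    have hac : ∀ c : V → ℝ, a ⬝ᵥ c = -(c ⬝ᵥ (A *ᵥ c0)) / h := by
      intro c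
      rw [ha]
      simp only [dotProduct]
      rw [← sum_neg_distrib, sum_div]
      apply sum_congr rfl
      intro x _
      ring
    have hac0 : a ⬝ᵥ c0 = h := by
      rw [hac]
      have : c0 ⬝ᵥ (A *ᵥ c0) = -h2 := by
        rw [hh2]
        simp [qf]
      rw [this, ← hsq]
      field_simp
    set A' := A + vecMulVec a a with hA'
    have hA's : A'.IsSymm := by
      rw [hA']
      refine hA.add ?_
      ext i j
      simp [vecMulVec_apply, mul_comm]
    have hA'c : A' *ᵥ c0 = 0 := by
      rw [hA', add_mulVec, vecMulVec_mulVec, hac0]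
      ext x
      simp only [Pi.add_apply, Pi.smul_apply, MulOpposite.smul_eq_mul_unop, MulOpposite.unop_op,
        Pi.zero_apply]
      rw [ha]
      field_simp
      ring
    have hT' : ∀ c ∈ T V, -1 ≤ qf A' c := by
      intro c hc
      rw [hA', qf_rank_one]
      have := hT c hc
      nlinarith [sq_nonneg (a ⬝ᵥ c)]
    have hN' : NegLE A' p := by
      intro E hE
      have hcE : c0 ∉ E := by
        intro hmem
        have hc00 : c0 ≠ 0 := by
          intro h0
          rw [h0] at hneg
          simp [qf] at hneg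
        have := hE c0 hmem hc00
        unfold qf at this
        rw [hA'c, dotProduct_zero] at this
        exact lt_irrefl _ this
      have hdisj : Disjoint E (Submodule.span ℝ {c0}) := by
        rw [Submodule.disjoint_def]
        intro x hx hx'
        obtain ⟨t, rfl⟩ := Submodule.mem_span_singleton.1 hx'
        by_cases ht : t = 0
        · rw [ht, zero_smul]
        · exfalso
          apply hcE
          have := E.smul_mem t⁻¹ hx
          rwa [smul_smul, inv_mul_cancel₀ ht, one_smul] at this
      have hc00 : c0 ≠ 0 := by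
        intro h0
        rw [h0] at hneg
        simp [qf] at hneg
      have h3 := hN (E ⊔ Submodule.span ℝ {c0}) (by
        intro x hx hx0
        obtain ⟨e, he, y, hy, rfl⟩ := Submodule.mem_sup.1 hx
        obtain ⟨t, rfl⟩ := Submodule.mem_span_singleton.1 hy
        have h4 : qf A (e + t • c0) = qf A' (e + t • c0) - (a ⬝ᵥ (e + t • c0)) ^ 2 := by
          rw [hA', qf_rank_one]
          ring
        have h5 : qf A' (e + t • c0) = qf A' e := by
          rw [qf_add_smul hA's, symm_dot hA's c0 e, hA'c, dotProduct_zero]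
          have : qf A' c0 = 0 := by
            unfold qf
            rw [hA'c, dotProduct_zero]
          rw [this]
          ring
        by_cases he0 : e = 0
        · subst he0
          rw [zero_add] at hx0 ⊢
          rw [qf_smul]
          have ht : t ≠ 0 := by
            rintro rfl
            simp at hx0
          have : 0 < t ^ 2 := by positivity
          nlinarith
        · have h6 := hE e he he0
          rw [h4, h5]
          nlinarith [sq_nonneg (a ⬝ᵥ (e + t • c0))])
      have h4 : finrank ℝ (E ⊔ Submodule.span ℝ {c0} : Submodule ℝ (V → ℝ)) =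
          finrank ℝ E + 1 := by
        have h5 := Submodule.finrank_sup_add_finrank_inf_eq E (Submodule.span ℝ {c0})
        rw [hdisj.eq_bot, finrank_bot, finrank_span_singleton hc00] at h5
        omega
      omega
    obtain ⟨a', ha', hS⟩ := ih A' hA's hN' hT'
    refine ⟨Fin.cons a a', ?_, ?_⟩
    · intro k x
      refine Fin.cases ?_ (fun k => ?_) k
      · simpa using ha1 x
      · simpa using ha' k x
    · intro c
      rw [Fin.sum_univ_succ]
      simp only [Fin.cons_zero, Fin.cons_succ]
      have h3 := hS c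
      rw [hA', qf_rank_one] at h3
      linarith

end Pool.Agent.H86.Inertia
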