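import Pool.Agent.H86.Inertia.Peel

set_option autoImplicit false

/-!
# The number of negative eigenvalues and negative definite subspaces
-/

namespace Pool.Agent.H86.Inertia

open Matrix Finset Module

variable {V : Type} [Fintype V] [DecidableEq V]

lemma qf_spectral {A : Matrix V V ℝ} (hA : A.IsHermitian) (x : V → ℝ) :
    qf A x = ∑ i, hA.eigenvalues i * ((hA.eigenvectorBasis i : V → ℝ) ⬝ᵥ x) ^ 2 := by
  set U : Matrix V V ℝ := (hA.eigenvectorUnitary : Matrix V V ℝ) with hU
  have h1 : A = U * diagonal hA.eigenvalues * star U := by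
    have := hA.spectral_theorem
    rw [Unitary.conjStarAlgAut_apply] at this
    exact this
  have h2 : qf A x = (star U *ᵥ x) ⬝ᵥ (diagonal hA.eigenvalues *ᵥ (star U *ᵥ x)) := by
    unfold qf
    conv_lhs => rw [h1]
    rw [← mulVec_mulVec, ← mulVec_mulVec, dotProduct_mulVec, ← mulVec_transpose]
    rfl
  rw [h2]
  simp only [dotProduct, mulVec_diagonal]
  apply sum_congr rfl
  intro i _
  have h3 : (star U *ᵥ x) i = (hA.eigenvectorBasis i : V → ℝ) ⬝ᵥ x := by
    simp only [mulVec, dotProduct, star_apply, star_trivial]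
    apply sum_congr rfl
    intro j _
    rfl
  rw [h3]
  simp only [dotProduct]
  ring

/-- A matrix with at most `p` eigenvalues below zero. -/
theorem negLE_of_eigenvalues {A : Matrix V V ℝ} (hA : A.IsHermitian) (p : ℕ)
    (hp : (univ.filter (fun i => hA.eigenvalues i < 0)).card ≤ p) : NegLE A p := by
  intro E hE
  set I := univ.filter (fun i => hA.eigenvalues i < 0) with hI
  let φ : E →ₗ[ℝ] (I → ℝ) :=
    { toFun := fun x i => (hA.eigenvectorBasis (i : V) : V → ℝ) ⬝ᵥ (x : V → ℝ)
      map_add' := by
        intro x y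
        ext i
        simp [dotProduct_add]
      map_smul' := by
        intro t x
        ext i
        simp [dotProduct_smul] }
  have hinj : Function.Injective φ := by
    rw [← LinearMap.ker_eq_bot, LinearMap.ker_eq_bot']
    intro x hx
    by_contra hne
    have hne' : (x : V → ℝ) ≠ 0 := fun h => hne (Subtype.ext h)
    have h1 := hE x x.2 hne'
    rw [qf_spectral hA] at h1
    have h2 : 0 ≤ ∑ i, hA.eigenvalues i * ((hA.eigenvectorBasis i : V → ℝ) ⬝ᵥ (x : V → ℝ)) ^ 2 := by
      apply sum_nonneg
      intro i _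
      by_cases hi : hA.eigenvalues i < 0
      · have h3 := congrFun hx ⟨i, by rw [hI]; simpa using hi⟩
        have h4 : (hA.eigenvectorBasis i : V → ℝ) ⬝ᵥ (x : V → ℝ) = 0 := h3
        rw [h4]
        simp
      · push Not at hi
        positivity
    linarith
  have h1 := LinearMap.finrank_le_finrank_of_injective hinj
  rw [finrank_fintype_fun_eq_card, Fintype.card_coe] at h1
  exact h1.trans hp

/-- A matrix with at most `p` eigenvalues above zero. -/
theorem posLE_of_eigenvalues {A : Matrix V V ℝ} (hA : A.IsHermitian) (p : ℕ)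
    (hp : (univ.filter (fun i => 0 < hA.eigenvalues i)).card ≤ p) : NegLE (-A) p := by
  intro E hE
  set I := univ.filter (fun i => 0 < hA.eigenvalues i) with hI
  have hq : ∀ x, qf (-A) x = - qf A x := by
    intro x
    unfold qf
    rw [neg_mulVec, dotProduct_neg]
  let φ : E →ₗ[ℝ] (I → ℝ) :=
    { toFun := fun x i => (hA.eigenvectorBasis (i : V) : V → ℝ) ⬝ᵥ (x : V → ℝ)
      map_add' := by
        intro x y
        ext i
        simp [dotProduct_add]
      map_smul' := by
        intro t x
        ext i
        simp [dotProduct_smul] }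
  have hinj : Function.Injective φ := by
    rw [← LinearMap.ker_eq_bot, LinearMap.ker_eq_bot']
    intro x hx
    by_contra hne
    have hne' : (x : V → ℝ) ≠ 0 := fun h => hne (Subtype.ext h)
    have h1 := hE x x.2 hne'
    rw [hq, qf_spectral hA] at h1
    have h2 : ∑ i, hA.eigenvalues i * ((hA.eigenvectorBasis i : V → ℝ) ⬝ᵥ (x : V → ℝ)) ^ 2 ≤ 0 := by
      apply sum_nonpos
      intro i _
      by_cases hi : 0 < hA.eigenvalues i
      · have h3 := congrFun hx ⟨i, by rw [hI]; simpa using hi⟩
        have h4 : (hA.eigenvectorBasis i : V → ℝ) ⬝ᵥ (x : V → ℝ) = 0 := h3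
        rw [h4]
        simp
      · push Not at hi
        exact mul_nonpos_of_nonpos_of_nonneg hi (sq_nonneg _)
    linarith
  have h1 := LinearMap.finrank_le_finrank_of_injective hinj
  rw [finrank_fintype_fun_eq_card, Fintype.card_coe] at h1
  exact h1.trans hp

end Pool.Agent.H86.Inertia
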